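import Pool.Agent.C4N.Stm

/-! BET: the base weights of one group. -/

set_option autoImplicit false
set_option linter.unusedSectionVars false

open scoped BigOperators Classical

noncomputable section

namespace Pool.Agent.C4N.H58

open Finset
open Pool.Agent.Helper13_Conc (mean mean_const mean_add mean_sub mean_mono)

/-! ### the quotient -/

theorem clip_lip (c x y : ℝ) : |max (-c) (min c x) - max (-c) (min c y)| ≤ |x - y| := by
  refine (abs_max_sub_max_le_max _ _ _ _).trans ?_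
  rw [sub_self, abs_zero, max_eq_right (abs_nonneg _)]
  refine (abs_min_sub_min_le_max _ _ _ _).trans ?_
  rw [sub_self, abs_zero, max_eq_right (abs_nonneg _)]

theorem clip_abs {c : ℝ} (hc : 0 ≤ c) (x : ℝ) : |max (-c) (min c x)| ≤ c := by
  rw [abs_le]
  refine ⟨le_max_left _ _, max_le (by linarith) (min_le_left _ _)⟩

theorem GG_abs {s : ℕ} (hs : 1 ≤ s) (N a b : ℝ) :
    |GG s N a b| ≤ 2 * (s : ℝ) ^ (-0.4 : ℝ) := by
  have hs0 : (0 : ℝ) < s := by exact_mod_cast hs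
  have hc : (0 : ℝ) ≤ (s : ℝ) ^ (0.6 : ℝ) := by positivity
  have hd : (s : ℝ) / 2 ≤ max a (s / 2) := le_max_right _ _
  have hd0 : 0 < max a ((s : ℝ) / 2) := lt_of_lt_of_le (by positivity) hd
  unfold GG
  rw [abs_div, abs_of_pos hd0, div_le_iff₀ hd0]
  refine (clip_abs hc _).trans ?_
  have h1 : (s : ℝ) ^ (0.6 : ℝ) = (s : ℝ) ^ (-0.4 : ℝ) * s := by
    nth_rewrite 3 [← Real.rpow_one (s : ℝ)]
    rw [← Real.rpow_add hs0]
    congr 1
    norm_num
  rw [h1]
  have h2 : (0 : ℝ) < (s : ℝ) ^ (-0.4 : ℝ) := by positivity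
  nlinarith

theorem GG_lip {s : ℕ} (hs : 1 ≤ s) (h4 : 4 ≤ (s : ℝ) ^ (0.4 : ℝ)) (N a b a' b' : ℝ)
    (ha : |a' - a| ≤ 1) (hb : |b' - b| ≤ 1) :
    |GG s N a' b' - GG s N a b| ≤ 3 / s := by
  have hs0 : (0 : ℝ) < s := by exact_mod_cast hs
  have hc : (0 : ℝ) ≤ (s : ℝ) ^ (0.6 : ℝ) := by positivity
  set c := (s : ℝ) ^ (0.6 : ℝ) with hcdef
  set n := max (-c) (min c (N - b)) with hn
  set n' := max (-c) (min c (N - b')) with hn'
  set e := max a ((s : ℝ) / 2) with he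
  set e' := max a' ((s : ℝ) / 2) with he'
  have h1 : |n' - n| ≤ 1 := by
    refine (clip_lip _ _ _).trans ?_
    rw [show N - b' - (N - b) = -(b' - b) by ring, abs_neg]
    exact hb
  have h2 : |n| ≤ c := clip_abs hc _
  have he2 : (s : ℝ) / 2 ≤ e := le_max_right _ _
  have he2' : (s : ℝ) / 2 ≤ e' := le_max_right _ _
  have he0 : 0 < e := lt_of_lt_of_le (by positivity) he2
  have he0' : 0 < e' := lt_of_lt_of_le (by positivity) he2'
  have h3 : |e - e'| ≤ 1 := by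
    refine (abs_max_sub_max_le_max _ _ _ _).trans ?_
    rw [sub_self, abs_zero, max_eq_left (abs_nonneg _), abs_sub_comm]
    exact ha
  have h5 : n' / e' - n / e = (n' - n) / e' + n * (e - e') / (e' * e) := by
    field_simp
    ring
  show |n' / e' - n / e| ≤ 3 / s
  rw [h5]
  refine (abs_add_le _ _).trans ?_
  rw [abs_div, abs_of_pos he0', abs_div, abs_of_pos (mul_pos he0' he0), abs_mul]
  have h6 : |n' - n| / e' ≤ 2 / s := by
    rw [div_le_div_iff₀ he0' hs0]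
    nlinarith
  have h7 : |n| * |e - e'| / (e' * e) ≤ 1 / s := by
    rw [div_le_div_iff₀ (mul_pos he0' he0) hs0]
    have h8 : |n| * |e - e'| ≤ c * 1 := mul_le_mul h2 h3 (abs_nonneg _) hc
    have h9 : (s : ℝ) / 2 * (s / 2) ≤ e' * e := mul_le_mul he2' he2 (by positivity) he0'.le
    have h10 : c * (s : ℝ) ^ (0.4 : ℝ) = s := by
      rw [hcdef, ← Real.rpow_add hs0]
      norm_num
    have h11 : 4 * c ≤ s := by nlinarith
    nlinarith
  calc |n' - n| / e' + |n| * |e - e'| / (e' * e) ≤ 2 / s + 1 / s := add_le_add h6 h7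
    _ = 3 / s := by ring

/-! ### the means -/

variable {K : ℕ} [NeZero K]

theorem mean_succ (d : ℕ) (f : (Fin (d + 1) → Fin K) → ℝ) :
    mean f = mean (fun η : Fin d → Fin K => (∑ t, f (Fin.cons t η)) / K) := by
  unfold mean
  have h1 : ∑ ω, f ω = ∑ η : Fin d → Fin K, ∑ t, f (Fin.cons t η) := by
    rw [← (Fin.consEquiv fun _ : Fin (d + 1) => Fin K).sum_comp, Fintype.sum_prod_type,
      Finset.sum_comm]
    rfl
  rw [h1, ← Finset.sum_div, Fintype.card_fun, Fintype.card_fun, Fintype.card_fin,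
    Fintype.card_fin, Fintype.card_fin]
  have hK : (K : ℝ) ≠ 0 := by exact_mod_cast NeZero.ne K
  push_cast
  rw [pow_succ]
  field_simp

theorem card_cons (T : Fin K → Prop) (d : ℕ) (t : Fin K) (η : Fin d → Fin K) :
    ((univ.filter fun i => T ((Fin.cons t η : Fin (d + 1) → Fin K) i)).card : ℝ) =
      (if T t then 1 else 0) + ((univ.filter fun i => T (η i)).card : ℝ) := by
  rw [Finset.card_filter, Finset.card_filter, Fin.sum_univ_succ]
  simp only [Fin.cons_zero, Fin.cons_succ]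
  push_cast
  rfl

theorem muG_step {s : ℕ} (hs : 1 ≤ s) (h4 : 4 ≤ (s : ℝ) ^ (0.4 : ℝ)) (T : Fin K → Prop)
    (h : Fin K → ℝ) (hh : ∀ t, 0 ≤ h t ∧ h t ≤ 1) (N h1 : ℝ) (d : ℕ) :
    |muG T h s N h1 (d + 1) - muG T h s N h1 d| ≤ 3 / s := by
  have hs0 : (0 : ℝ) < s := by exact_mod_cast hs
  have hK : (0 : ℝ) < K := by
    have := NeZero.pos K
    exact_mod_cast this
  unfold muG
  rw [mean_succ, ← mean_sub]
  have hpt : ∀ η : Fin d → Fin K,
      |(∑ t, GG s N (1 + ((univ.filter fun i => T ((Fin.cons t η : Fin (d + 1) → Fin K) i)).card :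
        ℝ)) (h1 + ∑ i, h ((Fin.cons t η : Fin (d + 1) → Fin K) i))) / K -
        GG s N (1 + ((univ.filter fun i => T (η i)).card : ℝ)) (h1 + ∑ i, h (η i))| ≤ 3 / s := by
    intro η
    set g := GG s N (1 + ((univ.filter fun i => T (η i)).card : ℝ)) (h1 + ∑ i, h (η i)) with hg
    have e1 : g = (∑ _t : Fin K, g) / K := by
      rw [Finset.sum_const, Finset.card_univ, Fintype.card_fin, nsmul_eq_mul]
      field_simp
    rw [e1, ← sub_div, ← Finset.sum_sub_distrib, abs_div, abs_of_pos hK, div_le_iff₀ hK]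
    refine (Finset.abs_sum_le_sum_abs _ _).trans ?_
    refine (Finset.sum_le_sum (g := fun _ => 3 / (s : ℝ)) fun t _ => ?_).trans ?_
    · rw [hg]
      apply GG_lip hs h4
      · rw [card_cons]
        split_ifs
        · rw [show (1 : ℝ) + (1 + ((univ.filter fun i => T (η i)).card : ℝ)) -
            (1 + ((univ.filter fun i => T (η i)).card : ℝ)) = 1 by ring]
          simp
        · simp
      · rw [Fin.sum_univ_succ]
        simp only [Fin.cons_zero, Fin.cons_succ]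
        rw [show h1 + (h t + ∑ i, h (η i)) - (h1 + ∑ i, h (η i)) = h t by ring,
          abs_of_nonneg (hh t).1]
        exact (hh t).2
    · rw [Finset.sum_const, Finset.card_univ, Fintype.card_fin, nsmul_eq_mul]
      exact le_of_eq (mul_comm _ _)
  rw [abs_le]
  constructor
  · rw [← mean_const (V := Fin d) (α := Fin K) (-(3 / (s : ℝ)))]
    exact mean_mono fun η => (abs_le.1 (hpt η)).1
  · rw [← mean_const (V := Fin d) (α := Fin K) (3 / (s : ℝ))]
    exact mean_mono fun η => (abs_le.1 (hpt η)).2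

theorem muG_diff {s : ℕ} (hs : 1 ≤ s) (h4 : 4 ≤ (s : ℝ) ^ (0.4 : ℝ)) (T : Fin K → Prop)
    (h : Fin K → ℝ) (hh : ∀ t, 0 ≤ h t ∧ h t ≤ 1) (N h1 : ℝ) (d : ℕ) :
    ∀ j, |muG T h s N h1 (d + j) - muG T h s N h1 d| ≤ j * (3 / s) := by
  intro j
  induction j with
  | zero => simp
  | succ j ih =>
    have h2 := muG_step hs h4 T h hh N h1 (d + j)
    have h3 := abs_sub_le (muG T h s N h1 (d + (j + 1))) (muG T h s N h1 (d + j))
      (muG T h s N h1 d)
    have h4 : muG T h s N h1 (d + j + 1) = muG T h s N h1 (d + (j + 1)) := rfl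
    rw [h4] at h2
    push_cast
    linarith

theorem muG_abs {s : ℕ} (hs : 1 ≤ s) (T : Fin K → Prop) (h : Fin K → ℝ) (N h1 : ℝ) (d : ℕ) :
    |muG T h s N h1 d| ≤ 2 * (s : ℝ) ^ (-0.4 : ℝ) := by
  unfold muG
  rw [abs_le]
  constructor
  · rw [← mean_const (V := Fin d) (α := Fin K) (-(2 * (s : ℝ) ^ (-0.4 : ℝ)))]
    exact mean_mono fun η => (abs_le.1 (GG_abs hs _ _ _)).1
  · rw [← mean_const (V := Fin d) (α := Fin K) (2 * (s : ℝ) ^ (-0.4 : ℝ))]
    exact mean_mono fun η => (abs_le.1 (GG_abs hs _ _ _)).2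

/-! ### the weights -/

section wts

variable {V : Type} [Fintype V]

/-- reversed arcs -/
def rv (O : V → V → Prop) : V → V → Prop := fun u v => O v u

/-- out-arcs with coin in `T` -/
def Tp (O : V → V → Prop) (T : Fin K → Prop) (ω : Sym2 V → Fin K) (x : V) : Finset V :=
  univ.filter fun y => O x y ∧ T (ω s(x, y))

theorem mem_Tp_rv {O : V → V → Prop} {T : Fin K → Prop} {ω : Sym2 V → Fin K} {x y : V} :
    x ∈ Tp (rv O) T ω y ↔ O x y ∧ T (ω s(x, y)) := by
  unfold Tp rv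
  rw [Finset.mem_filter, Sym2.eq_swap]
  simp

theorem mem_Tp {O : V → V → Prop} {T : Fin K → Prop} {ω : Sym2 V → Fin K} {x y : V} :
    y ∈ Tp O T ω x ↔ O x y ∧ T (ω s(x, y)) := by
  unfold Tp
  rw [Finset.mem_filter]
  simp

/-- the weights -/
def bet (O : V → V → Prop) (T : Fin K → Prop) (h : Fin K → ℝ) (s : ℕ) (N h1 : ℝ)
    (ω : Sym2 V → Fin K) (x y : V) : ℝ :=
  h1 + muG T h s N h1 (K - 1) + GP O T h s N ω x + GP (rv O) T h s N ω y -
    (∑ y' ∈ Tp O T ω x, GP (rv O) T h s N ω y') / cP O T ω x -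
    (∑ x' ∈ Tp (rv O) T ω y, GP O T h s N ω x') / cP (rv O) T ω y

theorem bet_rv (O : V → V → Prop) (T : Fin K → Prop) (h : Fin K → ℝ) (s : ℕ) (N h1 : ℝ)
    (ω : Sym2 V → Fin K) (x y : V) :
    bet (rv O) T h s N h1 ω y x = bet O T h s N h1 ω x y := by
  unfold bet
  have : rv (rv O) = O := rfl
  rw [this]
  ring

theorem avg_abs (S : Finset V) (f : V → ℝ) {e : ℝ} (he : 0 ≤ e) (hf : ∀ v, |f v| ≤ e) :
    |(∑ v ∈ S, f v) / (S.card : ℝ)| ≤ e := by
  rcases Nat.eq_zero_or_pos S.card with h0 | h0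
  · rw [h0]
    simpa using he
  · have h1 : (0 : ℝ) < S.card := by exact_mod_cast h0
    rw [abs_div, abs_of_pos h1, div_le_iff₀ h1]
    refine (Finset.abs_sum_le_sum_abs _ _).trans ?_
    refine (Finset.sum_le_sum fun v _ => hf v).trans ?_
    rw [Finset.sum_const, nsmul_eq_mul, mul_comm]

theorem bet_abs {s : ℕ} (hs : 1 ≤ s) (O : V → V → Prop) (T : Fin K → Prop) (h : Fin K → ℝ)
    (N h1 : ℝ) (ω : Sym2 V → Fin K) (x y : V) :
    |bet O T h s N h1 ω x y - h1| ≤ 10 * (s : ℝ) ^ (-0.4 : ℝ) := by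
  have he : (0 : ℝ) ≤ 2 * (s : ℝ) ^ (-0.4 : ℝ) := by positivity
  have e1 := muG_abs hs T h N h1 (K - 1)
  have e2 : ∀ x, |GP O T h s N ω x| ≤ 2 * (s : ℝ) ^ (-0.4 : ℝ) := fun x => GG_abs hs _ _ _
  have e3 : ∀ x, |GP (rv O) T h s N ω x| ≤ 2 * (s : ℝ) ^ (-0.4 : ℝ) := fun x => GG_abs hs _ _ _
  have e4 := avg_abs (Tp O T ω x) (fun y' => GP (rv O) T h s N ω y') he e3
  have e5 := avg_abs (Tp (rv O) T ω y) (fun x' => GP O T h s N ω x') he e2
  have e6 : cP O T ω x = ((Tp O T ω x).card : ℝ) := rfl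
  have e7 : cP (rv O) T ω y = ((Tp (rv O) T ω y).card : ℝ) := rfl
  unfold bet
  rw [e6, e7]
  have e2' := e2 x
  have e3' := e3 y
  rw [abs_le] at *
  constructor <;> linarith [e1.1, e1.2, e2'.1, e2'.2, e3'.1, e3'.2, e4.1, e4.2, e5.1, e5.2]

theorem row {k s C : ℕ} (hs : 1 ≤ s) (h4 : 4 ≤ (s : ℝ) ^ (0.4 : ℝ))
    (h10 : (s : ℝ) ^ (0.6 : ℝ) ≤ s / 10)
    (hnum : 8 * (s : ℝ) ^ (-0.4 : ℝ) + (k : ℝ) ^ (-0.45 : ℝ) ≤ (k : ℝ) ^ (-0.3 : ℝ))
    (O : V → V → Prop) (hod : ∀ x, K ≤ od O x ∧ od O x ≤ K + C)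
    (T : Fin K → Prop) (h : Fin K → ℝ) (N h1 q0 : ℝ) (hh : ∀ t, 0 ≤ h t ∧ h t ≤ 1)
    (hq0 : 0 ≤ q0) (ω : Sym2 V → Fin K)
    (hA : ∀ x, |cP O T ω x - s| ≤ (s : ℝ) ^ (0.6 : ℝ))
    (hA' : ∀ x, |cP (rv O) T ω x - s| ≤ (s : ℝ) ^ (0.6 : ℝ))
    (hB : ∀ x, |N - hP O h ω x| ≤ (s : ℝ) ^ (0.6 : ℝ))
    (hF : ∀ x, |Fr O T h s N h1 ω x| ≤ (k : ℝ) ^ (-0.45 : ℝ))
    (hq : ∀ y, (((univ.filter fun x => O x y ∧ T (ω s(x, y)) ∧ od O x ≠ K).card : ℝ) ≤ q0 * s))
    (x : V) :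
    |(∑ y ∈ Tp O T ω x, bet O T h s N h1 ω x y) +
      (hP O h ω x - h1 * cP O T ω x) - N| ≤ (k : ℝ) ^ (-0.3 : ℝ) + 100 * C * q0 := by
  have hs0 : (0 : ℝ) < s := by exact_mod_cast hs
  have hC0 : (0 : ℝ) ≤ C := Nat.cast_nonneg _
  set μ := muG T h s N h1 (K - 1) with hμ
  set a := cP O T ω x with ha
  have haT : a = ((Tp O T ω x).card : ℝ) := rfl
  have ha1 : 9 / 10 * s ≤ a := by
    have := (abs_le.1 (hA x)).1
    linarith
  have ha2 : a ≤ 11 / 10 * s := by
    have := (abs_le.1 (hA x)).2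
    linarith
  have ha0 : 0 < a := by linarith
  have hb1 : ∀ y, 9 / 10 * s ≤ cP (rv O) T ω y := by
    intro y
    have := (abs_le.1 (hA' y)).1
    linarith
  have hb0 : ∀ y, 0 < cP (rv O) T ω y := fun y => by linarith [hb1 y]
  have hGx : a * GP O T h s N ω x = N - hP O h ω x := by
    unfold GP GG
    have e1 : max (-(s : ℝ) ^ (0.6 : ℝ)) (min ((s : ℝ) ^ (0.6 : ℝ)) (N - hP O h ω x)) =
        N - hP O h ω x := by
      have := abs_le.1 (hB x)
      rw [min_eq_right this.2, max_eq_right this.1]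
    have e2 : max (cP O T ω x) ((s : ℝ) / 2) = a := max_eq_left (by linarith)
    rw [e1, e2]
    field_simp
  have he : (0 : ℝ) ≤ (s : ℝ) ^ (-0.4 : ℝ) := by positivity
  -- the rows
  have hrow : ∑ y ∈ Tp O T ω x, bet O T h s N h1 ω x y =
      a * h1 + (N - hP O h ω x) + ∑ y ∈ Tp O T ω x,
        (∑ x' ∈ Tp (rv O) T ω y, (μ - GP O T h s N ω x')) / cP (rv O) T ω y := by
    have e1 : ∀ y ∈ Tp O T ω x, bet O T h s N h1 ω x y =
        (h1 + GP O T h s N ω x - (∑ y' ∈ Tp O T ω x, GP (rv O) T h s N ω y') / a) +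
        GP (rv O) T h s N ω y +
        (∑ x' ∈ Tp (rv O) T ω y, (μ - GP O T h s N ω x')) / cP (rv O) T ω y := by
      intro y _
      unfold bet
      rw [Finset.sum_sub_distrib, Finset.sum_const, nsmul_eq_mul, sub_div]
      have e2 : ((Tp (rv O) T ω y).card : ℝ) * μ / cP (rv O) T ω y = μ := by
        have e3 : ((Tp (rv O) T ω y).card : ℝ) = cP (rv O) T ω y := rfl
        rw [e3]
        have := (hb0 y).ne'
        field_simp
      rw [e2]
      ring
    rw [Finset.sum_congr rfl e1, Finset.sum_add_distrib, Finset.sum_add_distrib,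
      Finset.sum_const, nsmul_eq_mul, ← haT, ← hGx]
    field_simp
    ring
  -- comparison with `Fr`
  have hcmp : |(∑ y ∈ Tp O T ω x,
      (∑ x' ∈ Tp (rv O) T ω y, (μ - GP O T h s N ω x')) / cP (rv O) T ω y) -
      Fr O T h s N h1 ω x| ≤ 8 * (s : ℝ) ^ (-0.4 : ℝ) + 6 * C * q0 := by
    have e1 : Fr O T h s N h1 ω x = ∑ y ∈ Tp O T ω x,
        (∑ x' ∈ (Tp (rv O) T ω y).erase x, (muG T h s N h1 (od O x' - 1) - GP O T h s N ω x')) /
          cP (rv O) T ω y := by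
      unfold Fr
      refine Finset.sum_congr rfl fun y _ => ?_
      have e2 : max (cP (fun u v => O v u) T ω y) ((s : ℝ) / 2) = cP (rv O) T ω y :=
        max_eq_left (by
          have := hb1 y
          have e3 : cP (fun u v => O v u) T ω y = cP (rv O) T ω y := rfl
          rw [e3]
          linarith)
      rw [e2, inv_mul_eq_div]
      congr 1
      refine Finset.sum_congr ?_ fun _ _ => rfl
      ext x'
      rw [Finset.mem_filter, Finset.mem_erase, mem_Tp_rv]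
      simp
    rw [e1, ← Finset.sum_sub_distrib]
    refine (Finset.abs_sum_le_sum_abs _ _).trans ?_
    have e3 : ∀ y ∈ Tp O T ω x,
        |(∑ x' ∈ Tp (rv O) T ω y, (μ - GP O T h s N ω x')) / cP (rv O) T ω y -
          (∑ x' ∈ (Tp (rv O) T ω y).erase x,
            (muG T h s N h1 (od O x' - 1) - GP O T h s N ω x')) / cP (rv O) T ω y| ≤
        (4 * (s : ℝ) ^ (-0.4 : ℝ) + 3 * C * q0) / (9 / 10 * s) := by
      intro y hy
      have hx : x ∈ Tp (rv O) T ω y := mem_Tp_rv.2 (mem_Tp.1 hy)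
      rw [← sub_div, abs_div, abs_of_pos (hb0 y)]
      have e4 : |∑ x' ∈ Tp (rv O) T ω y, (μ - GP O T h s N ω x') -
          ∑ x' ∈ (Tp (rv O) T ω y).erase x,
            (muG T h s N h1 (od O x' - 1) - GP O T h s N ω x')| ≤
          4 * (s : ℝ) ^ (-0.4 : ℝ) + 3 * C * q0 := by
        rw [← Finset.add_sum_erase _ _ hx]
        have e5 : (μ - GP O T h s N ω x) + ∑ x' ∈ (Tp (rv O) T ω y).erase x,
            (μ - GP O T h s N ω x') - ∑ x' ∈ (Tp (rv O) T ω y).erase x,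
            (muG T h s N h1 (od O x' - 1) - GP O T h s N ω x') =
            (μ - GP O T h s N ω x) + ∑ x' ∈ (Tp (rv O) T ω y).erase x,
              (μ - muG T h s N h1 (od O x' - 1)) := by
          rw [add_sub_assoc, ← Finset.sum_sub_distrib]
          congr 1
          refine Finset.sum_congr rfl fun x' _ => ?_
          ring
        rw [e5]
        refine (abs_add_le _ _).trans ?_
        have e6 : |μ - GP O T h s N ω x| ≤ 4 * (s : ℝ) ^ (-0.4 : ℝ) := by
          have e7 := muG_abs hs T h N h1 (K - 1)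
          have e8 : |GP O T h s N ω x| ≤ 2 * (s : ℝ) ^ (-0.4 : ℝ) := GG_abs hs _ _ _
          rw [← hμ] at e7
          rw [abs_le] at *
          constructor <;> linarith [e7.1, e7.2, e8.1, e8.2]
        have e9 : |∑ x' ∈ (Tp (rv O) T ω y).erase x,
              (μ - muG T h s N h1 (od O x' - 1))| ≤ 3 * C * q0 := by
          refine (Finset.abs_sum_le_sum_abs _ _).trans ?_
          have e10 : ∀ x' ∈ (Tp (rv O) T ω y).erase x,
              |μ - muG T h s N h1 (od O x' - 1)| ≤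
                if od O x' ≠ K then C * (3 / (s : ℝ)) else 0 := by
            intro x' _
            split_ifs with hne
            · have e11 := muG_diff hs h4 T h hh N h1 (K - 1) (od O x' - K)
              have hKpos : 0 < K := NeZero.pos K
              have hod' := hod x'
              have e12 : K - 1 + (od O x' - K) = od O x' - 1 := by omega
              rw [e12, ← hμ] at e11
              rw [abs_sub_comm]
              refine e11.trans ?_
              refine mul_le_mul_of_nonneg_right ?_ (by positivity)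
              exact_mod_cast (by omega : od O x' - K ≤ C)
            · rw [not_not] at hne
              rw [hne, hμ, sub_self, abs_zero]
          refine (Finset.sum_le_sum e10).trans ?_
          rw [← Finset.sum_filter, Finset.sum_const, nsmul_eq_mul]
          have e13 : ((((Tp (rv O) T ω y).erase x).filter fun x' => od O x' ≠ K).card : ℝ) ≤
              q0 * s := by
            refine le_trans ?_ (hq y)
            have e14 : (((Tp (rv O) T ω y).erase x).filter fun x' => od O x' ≠ K) ⊆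
                univ.filter fun x => O x y ∧ T (ω s(x, y)) ∧ od O x ≠ K := by
              intro x' hx'
              obtain ⟨e15, e16⟩ := Finset.mem_filter.1 hx'
              have e17 := mem_Tp_rv.1 (Finset.mem_erase.1 e15).2
              exact Finset.mem_filter.2 ⟨Finset.mem_univ _, e17.1, e17.2, e16⟩
            exact_mod_cast Finset.card_le_card e14
          calc ((((Tp (rv O) T ω y).erase x).filter fun x' => od O x' ≠ K).card : ℝ) *
                (C * (3 / (s : ℝ))) ≤ (q0 * s) * (C * (3 / (s : ℝ))) :=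
                mul_le_mul_of_nonneg_right e13 (by positivity)
            _ = 3 * C * q0 := by field_simp
        linarith
      have e20 : 0 ≤ 4 * (s : ℝ) ^ (-0.4 : ℝ) + 3 * C * q0 := by positivity
      exact div_le_div₀ e20 e4 (by positivity) (hb1 y)
    refine (Finset.sum_le_sum e3).trans ?_
    rw [Finset.sum_const, nsmul_eq_mul, ← haT]
    have e20 : 0 ≤ 4 * (s : ℝ) ^ (-0.4 : ℝ) + 3 * C * q0 := by positivity
    calc a * ((4 * (s : ℝ) ^ (-0.4 : ℝ) + 3 * C * q0) / (9 / 10 * s))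
        ≤ (11 / 10 * s) * ((4 * (s : ℝ) ^ (-0.4 : ℝ) + 3 * C * q0) / (9 / 10 * s)) :=
          mul_le_mul_of_nonneg_right ha2 (by positivity)
      _ = 11 / 9 * (4 * (s : ℝ) ^ (-0.4 : ℝ) + 3 * C * q0) := by
          field_simp
      _ ≤ 8 * (s : ℝ) ^ (-0.4 : ℝ) + 6 * C * q0 := by
          have e21 : 0 ≤ C * q0 := mul_nonneg hC0 hq0
          nlinarith
  have hfin : (∑ y ∈ Tp O T ω x, bet O T h s N h1 ω x y) +
      (hP O h ω x - h1 * cP O T ω x) - N = ∑ y ∈ Tp O T ω x,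
        (∑ x' ∈ Tp (rv O) T ω y, (μ - GP O T h s N ω x')) / cP (rv O) T ω y := by
    rw [hrow]
    ring
  rw [hfin]
  have hFx := hF x
  have e21 : 0 ≤ C * q0 := mul_nonneg hC0 hq0
  rw [abs_le] at *
  constructor <;> linarith [hcmp.1, hcmp.2, hFx.1, hFx.2]

end wts

theorem bet_num : ∃ k0 : ℕ, ∀ k s : ℕ, k0 ≤ k → (k : ℝ) ^ (0.99 : ℝ) ≤ s →
    1 ≤ s ∧ 4 ≤ (s : ℝ) ^ (0.4 : ℝ) ∧ (s : ℝ) ^ (0.6 : ℝ) ≤ s / 10 ∧
    10 * (s : ℝ) ^ (-0.4 : ℝ) ≤ 3 / 20 ∧
    8 * (s : ℝ) ^ (-0.4 : ℝ) + (k : ℝ) ^ (-0.45 : ℝ) ≤ (k : ℝ) ^ (-0.3 : ℝ) := by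
  have h1 := (tendsto_rpow_atTop (by norm_num : (0 : ℝ) < 0.096)).eventually
    (Filter.eventually_ge_atTop (100 : ℝ))
  obtain ⟨a1, h1⟩ := Filter.eventually_atTop.1 h1
  refine ⟨⌈max a1 1⌉₊, fun k s hk hks => ?_⟩
  have hk' : max a1 1 ≤ (k : ℝ) := (Nat.le_ceil _).trans (by exact_mod_cast hk)
  have hk1 : a1 ≤ k := (le_max_left _ _).trans hk'
  have hk2 : (1 : ℝ) ≤ k := (le_max_right _ _).trans hk'
  have hk0 : (0 : ℝ) < k := by linarith
  have h100 : (100 : ℝ) ≤ (k : ℝ) ^ (0.096 : ℝ) := h1 k hk1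
  have hs1 : (1 : ℝ) ≤ s := le_trans (Real.one_le_rpow hk2 (by norm_num)) hks
  have hs0 : (0 : ℝ) < s := by linarith
  have h2 : (k : ℝ) ^ (0.396 : ℝ) ≤ (s : ℝ) ^ (0.4 : ℝ) := by
    calc (k : ℝ) ^ (0.396 : ℝ) = ((k : ℝ) ^ (0.99 : ℝ)) ^ (0.4 : ℝ) := by
          rw [← Real.rpow_mul hk0.le]
          norm_num
      _ ≤ (s : ℝ) ^ (0.4 : ℝ) := Real.rpow_le_rpow (by positivity) hks (by norm_num)
  have h3 : (k : ℝ) ^ (0.096 : ℝ) ≤ (k : ℝ) ^ (0.396 : ℝ) :=
    Real.rpow_le_rpow_of_exponent_le hk2 (by norm_num)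
  have h5 : 100 ≤ (s : ℝ) ^ (0.4 : ℝ) := by linarith
  have h6 : (s : ℝ) ^ (-0.4 : ℝ) * (s : ℝ) ^ (0.4 : ℝ) = 1 := by
    rw [← Real.rpow_add hs0]
    norm_num
  have h7 : (0 : ℝ) < (s : ℝ) ^ (-0.4 : ℝ) := by positivity
  refine ⟨by exact_mod_cast hs1, by linarith, ?_, ?_, ?_⟩
  · have h8 : (s : ℝ) ^ (0.6 : ℝ) * (s : ℝ) ^ (0.4 : ℝ) = s := by
      rw [← Real.rpow_add hs0]
      norm_num
    have h9 : (0 : ℝ) < (s : ℝ) ^ (0.6 : ℝ) := by positivity
    nlinarith
  · nlinarith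
  · have h8 : (s : ℝ) ^ (-0.4 : ℝ) ≤ (k : ℝ) ^ (-0.396 : ℝ) := by
      rw [show (-0.4 : ℝ) = -(0.4 : ℝ) by norm_num, show (-0.396 : ℝ) = -(0.396 : ℝ) by norm_num,
        Real.rpow_neg hs0.le, Real.rpow_neg hk0.le]
      exact inv_anti₀ (by positivity) h2
    have h9 : (k : ℝ) ^ (-0.45 : ℝ) ≤ (k : ℝ) ^ (-0.396 : ℝ) :=
      Real.rpow_le_rpow_of_exponent_le hk2 (by norm_num)
    have h10 : (k : ℝ) ^ (-0.396 : ℝ) * (k : ℝ) ^ (0.096 : ℝ) = (k : ℝ) ^ (-0.3 : ℝ) := by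
      rw [← Real.rpow_add hk0]
      norm_num
    have h11 : (0 : ℝ) < (k : ℝ) ^ (-0.396 : ℝ) := by positivity
    nlinarith

/-- BET -/
theorem betw : BETStmt := by
  obtain ⟨k0, hk0⟩ := bet_num
  refine ⟨k0, ?_⟩
  intro k K s C hk hKk hK1 hks hsk V _ O hod hod' T h N h1 q0 hh hhT hh1 hh2 hq0 hq1 ω hA hB hF hq
  obtain ⟨hs1, hs4, hs10, hs15, hnum⟩ := hk0 k s hk hks
  have : NeZero K := ⟨by omega⟩
  have hod2 : ∀ x, K ≤ od (rv O) x ∧ od (rv O) x ≤ K + C := hod'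
  refine ⟨bet O T h s N h1 ω, ?_, ?_, ?_⟩
  · intro x y
    have := abs_le.1 (bet_abs hs1 O T h N h1 ω x y)
    constructor <;> linarith [this.1, this.2]
  · intro x
    exact row hs1 hs4 hs10 hnum O hod T h N h1 q0 hh hq0 ω (fun x => (hA x).1) (fun x => (hA x).2)
      (fun x => (hB x).1) (fun x => (hF x).1) (fun y => (hq y).1) x
  · intro y
    have hq' : ∀ y, (((univ.filter fun x => rv O x y ∧ T (ω s(x, y)) ∧
        od (rv O) x ≠ K).card : ℝ) ≤ q0 * s) := by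
      intro y
      have e1 : (univ.filter fun x => rv O x y ∧ T (ω s(x, y)) ∧ od (rv O) x ≠ K) =
          univ.filter fun x => O y x ∧ T (ω s(y, x)) ∧ od (fun u v => O v u) x ≠ K := by
        refine Finset.filter_congr fun x _ => ?_
        rw [Sym2.eq_swap]
        rfl
      rw [e1]
      exact (hq y).2
    have e2 := row hs1 hs4 hs10 hnum (rv O) hod2 T h N h1 q0 hh hq0 ω (fun x => (hA x).2)
      (fun x => (hA x).1) (fun x => (hB x).2) (fun x => (hF x).2) hq' y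
    have e3 : ∑ x ∈ Tp (rv O) T ω y, bet (rv O) T h s N h1 ω y x =
        ∑ x ∈ univ.filter (fun x => O x y ∧ T (ω s(x, y))), bet O T h s N h1 ω x y := by
      refine Finset.sum_congr ?_ fun x _ => bet_rv O T h s N h1 ω x y
      ext x
      rw [mem_Tp_rv, Finset.mem_filter]
      simp
    rw [e3] at e2
    exact e2

end Pool.Agent.C4N.H58
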